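import Mathlib

namespace Pool.Agent.Results.MP_41caf5_nt.Disproof

/-- `a = x ^ m` for some integers `x` and `m > 1`. -/
def IsPerfectPower (a : ℤ) : Prop := ∃ (x : ℤ) (m : ℕ), 1 < m ∧ a = x ^ m

/-- `g` is a primitive root modulo `p`: `p ∤ g`, and every unit of `ℤ/pℤ` is a power of the
class of `g`. -/
def IsPrimRoot (g : ℤ) (p : ℕ) : Prop :=
  ¬ (p : ℤ) ∣ g ∧ ∀ u : (ZMod p)ˣ, ∃ k : ℕ, (u : ZMod p) = (g : ZMod p) ^ k

/-- `a` is the largest negative primitive root modulo `p`. -/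
def IsLargestNeg (a : ℤ) (p : ℕ) : Prop :=
  IsPrimRoot a p ∧ ∀ b : ℤ, a < b → b < 0 → ¬ IsPrimRoot b p

lemma not_pp : ¬ IsPerfectPower (-16) := by
  rintro ⟨x, m, hm, h⟩
  rcases Nat.even_or_odd m with he | ho
  · have := he.pow_nonneg x
    omega
  · have h3 : 3 ≤ m := by
      obtain ⟨k, rfl⟩ := ho
      omega
    have hx : x.natAbs ^ m = 16 := by
      rw [← Int.natAbs_pow, ← h]; rfl
    have hx2 : x.natAbs ≤ 2 := by
      by_contra hc
      have h1 : 3 ^ m ≤ x.natAbs ^ m := Nat.pow_le_pow_left (by omega) m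
      have h2 : 3 ^ 3 ≤ 3 ^ m := Nat.pow_le_pow_right (by norm_num) h3
      omega
    interval_cases hy : x.natAbs
    · rw [zero_pow (by omega)] at hx; omega
    · rw [one_pow] at hx; omega
    · have : m = 4 := Nat.pow_right_injective (le_refl 2) (by simpa using hx)
      subst this
      exact absurd ho (by decide)

lemma neg_four {p : ℕ} (hp : p.Prime) (h : IsPrimRoot (-16) p) : IsPrimRoot (-4) p := by
  have := Fact.mk hp
  obtain ⟨hnd, hgen⟩ := h
  have hp2 : p ≠ 2 := by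
    rintro rfl
    exact hnd (by norm_num)
  have h20 : (2 : ZMod p) ≠ 0 := by
    intro h0
    have : ((2 : ℕ) : ZMod p) = 0 := by exact_mod_cast h0
    rw [ZMod.natCast_eq_zero_iff] at this
    exact hp2 ((Nat.prime_dvd_prime_iff_eq hp Nat.prime_two).mp this)
  refine ⟨fun hd => hnd (hd.trans (by norm_num)), ?_⟩
  by_cases h3 : p % 4 = 3
  · have hm : ((-4 : ℤ) : ZMod p) ^ (2 * (p / 4) + 1) = -1 := by
      have h1 : (2 : ZMod p) ^ (p - 1) = 1 := ZMod.pow_card_sub_one_eq_one h20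
      have h2 : p - 1 = 2 * (2 * (p / 4) + 1) := by omega
      rw [h2, pow_mul] at h1
      have h4 : ((-4 : ℤ) : ZMod p) = -(2 ^ 2) := by push_cast; ring
      rw [h4, Odd.neg_pow ⟨p / 4, rfl⟩, h1]
    have h16 : ((-16 : ℤ) : ZMod p) = ((-4 : ℤ) : ZMod p) ^ (2 * (p / 4) + 1 + 2) := by
      rw [pow_add, hm]; push_cast; ring
    intro u
    obtain ⟨k, hk⟩ := hgen u
    exact ⟨(2 * (p / 4) + 1 + 2) * k, by rw [hk, h16, pow_mul]⟩
  · exfalso
    obtain ⟨i, hi⟩ := ZMod.exists_sq_eq_neg_one_iff.mpr h3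
    obtain ⟨x, hx⟩ := FiniteField.exists_nonsquare (F := ZMod p) (by rwa [ZMod.ringChar_zmod_n])
    have hx0 : x ≠ 0 := by
      rintro rfl
      exact hx ⟨0, by simp⟩
    obtain ⟨k, hk⟩ := hgen (Units.mk0 x hx0)
    apply hx
    have h16 : ((-16 : ℤ) : ZMod p) = (4 * i) * (4 * i) := by
      push_cast; linear_combination 16 * hi
    refine ⟨(4 * i) ^ k, ?_⟩
    rw [← mul_pow, ← h16, ← hk]; rfl

/-- Some negative integer `a ≠ -2` that is not a perfect power (namely `-16`) is the largest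
negative primitive root modulo no prime at all. -/
theorem result : ∃ a : ℤ, a < 0 ∧ a ≠ -2 ∧ ¬ IsPerfectPower a ∧
    ∀ p : ℕ, p.Prime → ¬ IsLargestNeg a p :=
  ⟨-16, by norm_num, by norm_num, not_pp,
    fun _ hp h => h.2 (-4) (by norm_num) (by norm_num) (neg_four hp h.1)⟩

end Pool.Agent.Results.MP_41caf5_nt.Disproof
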